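import Pool.Agent.Work.MP_918064_lc.Member

/-!
# MP_918064_lc: r-Dominating Set parameterized by the distance to split graphs

For `r ≥ 3` the problem is fixed-parameter tractable. For `r = 2` it is equivalent, under
polynomial-time parameterized reductions in both directions, to Dominating Set parameterized by
the solution size, that is, `W[2]`-complete.

Ideas. `r ≥ 3`: the big component of `G - X` has diameter at most `3`, so a ball around one of its
vertices is determined by its traces of radius `r - 1` and `r` on `X`; a ball around a vertex
which is isolated in `G - X` is determined by its neighbours in `X`. Hence there are at most
`4 ^ k + 2 ^ k + k` distinct balls around non-isolated vertices, and one tries all families of them.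
`r = 2`, hardness: clique `k_w` and pendant `w` for every vertex `w` of `H`, `k` copies `(i, u)` of
`V(H)` with `(i, u)` adjacent to `k_w` iff `u` dominates `w`, and `x_i` adjacent to the `i`-th copy
and to a pendant `y_i`; `X = {x_i}`. Membership: `X` and one vertex of the clique dominate all
non-isolated vertices, so one may assume that at most `k` non-isolated vertices may be chosen, and
the problem is Dominating Set in the square of the graph.
-/

set_option autoImplicit false

namespace Pool.Agent.Results.MP_918064_lc.Dichotomy

open Pool.Agent.MP918064

/-- `r`-Dominating Set parameterized by SVD is fixed-parameter tractable for all `r ≥ 3`, and for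
`r = 2` it is equivalent under polynomial-time parameterized reductions to Dominating Set
parameterized by the solution size. -/
theorem result : (∀ r : ℕ, 3 ≤ r → FPT r) ∧ HardTwo ∧ MemberTwo :=
  ⟨fun _ hr => fpt_three hr, hardTwo, memberTwo⟩

end Pool.Agent.Results.MP_918064_lc.Dichotomy
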